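import Mathlib
import Pool.Agent.NashP.Pair

/-!
# Common cycles under Nash-Williams' condition (P)

Let `G` be a loopless digraph on `n ≥ 3` vertices with condition (P). If two vertices satisfy one
of eight mild conditions (one of them has both semidegrees at least `n / 2`, or their outdegrees
sum to at least `n`, or their indegrees do, or one outdegree and the other indegree sum to at least
`n - 1`, or they are adjacent), then some directed cycle contains both.

The proof: a strict Posa-type lemma on linear forests with one marked vertex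
(`Pool.Agent.NashP.One`, by contractions and deletions), the structure of the closed sets with one
exit (`Pool.Agent.NashP.Conn`), and two disjoint paths into the common in-neighbours
(`Pool.Agent.NashP.Menger`).
-/

set_option autoImplicit false

namespace Pool.Agent.Results.MP_a27047_co.CommonCycle

open Pool.Agent.NashP

theorem rd_eq {n : ℕ} (E : Finset (Fin n × Fin n)) (hloop : ∀ v : Fin n, (v, v) ∉ E)
    (v : Fin n) :
    rd (fun a b => (a, b) ∈ E) Finset.univ v = (E.filter (fun e => e.1 = v)).card := by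
  refine rd_card _ Prod.snd ?_ ?_ ?_
  · rintro ⟨a, b⟩ ha ⟨c, d⟩ hc hac
    rw [Finset.mem_coe, Finset.mem_filter] at ha hc
    obtain ⟨_, h1⟩ := ha
    obtain ⟨_, h2⟩ := hc
    simp only at h1 h2 hac
    rw [h1, h2, hac]
  · rintro ⟨a, b⟩ ha
    rw [Finset.mem_filter] at ha
    obtain ⟨h1, h2⟩ := ha
    simp only at h2 ⊢
    subst h2
    refine ⟨?_, h1⟩
    rintro rfl
    exact hloop _ h1
  · intro y _ h1
    exact ⟨(v, y), Finset.mem_filter.2 ⟨h1, rfl⟩, rfl⟩

theorem rd_eq' {n : ℕ} (E : Finset (Fin n × Fin n)) (hloop : ∀ v : Fin n, (v, v) ∉ E)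
    (v : Fin n) :
    rd (fl (fun a b => (a, b) ∈ E)) Finset.univ v = (E.filter (fun e => e.2 = v)).card := by
  refine rd_card _ Prod.fst ?_ ?_ ?_
  · rintro ⟨a, b⟩ ha ⟨c, d⟩ hc hac
    rw [Finset.mem_coe, Finset.mem_filter] at ha hc
    obtain ⟨_, h1⟩ := ha
    obtain ⟨_, h2⟩ := hc
    simp only at h1 h2 hac
    rw [h1, h2, hac]
  · rintro ⟨a, b⟩ ha
    rw [Finset.mem_filter] at ha
    obtain ⟨h1, h2⟩ := ha
    simp only at h2 ⊢
    subst h2
    refine ⟨?_, h1⟩
    rintro rfl
    exact hloop _ h1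
  · intro y _ h1
    exact ⟨(y, v), Finset.mem_filter.2 ⟨h1, rfl⟩, rfl⟩

theorem result (n : ℕ) (hn : 3 ≤ n) (E : Finset (Fin n × Fin n))
    (hloop : ∀ v : Fin n, (v, v) ∉ E)
    (hP : ∀ i : ℕ, 1 ≤ i → 2 * i + 1 < n →
      (Finset.univ.filter (fun v : Fin n => (E.filter (fun e => e.1 = v)).card ≤ i)).card < i ∧
      (Finset.univ.filter (fun v : Fin n => (E.filter (fun e => e.2 = v)).card ≤ i)).card < i)
    (hO : n % 2 = 1 →
      (Finset.univ.filter (fun v : Fin n =>
        (E.filter (fun e => e.1 = v)).card < (n + 1) / 2)).card < (n + 1) / 2 ∧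
      (Finset.univ.filter (fun v : Fin n =>
        (E.filter (fun e => e.2 = v)).card < (n + 1) / 2)).card < (n + 1) / 2)
    (u v : Fin n) (huv : u ≠ v)
    (hd : (n ≤ 2 * (E.filter (fun e => e.1 = u)).card ∧
        n ≤ 2 * (E.filter (fun e => e.2 = u)).card) ∨
      (n ≤ 2 * (E.filter (fun e => e.1 = v)).card ∧
        n ≤ 2 * (E.filter (fun e => e.2 = v)).card) ∨
      n ≤ (E.filter (fun e => e.1 = u)).card + (E.filter (fun e => e.1 = v)).card ∨
      n ≤ (E.filter (fun e => e.2 = u)).card + (E.filter (fun e => e.2 = v)).card ∨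
      n ≤ (E.filter (fun e => e.1 = u)).card + (E.filter (fun e => e.2 = v)).card + 1 ∨
      n ≤ (E.filter (fun e => e.1 = v)).card + (E.filter (fun e => e.2 = u)).card + 1 ∨
      (u, v) ∈ E ∨ (v, u) ∈ E) :
    ∃ l : List (Fin n), l.Nodup ∧ l.IsChain (fun a b => (a, b) ∈ E) ∧
      (∀ a ∈ l.getLast?, ∀ b ∈ l.head?, (a, b) ∈ E) ∧ u ∈ l ∧ v ∈ l := by
  classical
  set R : Fin n → Fin n → Prop := fun a b => (a, b) ∈ E with hR
  have hro : ∀ v, rd R Finset.univ v = (E.filter (fun e => e.1 = v)).card :=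
    fun v => rd_eq E hloop v
  have hri : ∀ v, rd (fl R) Finset.univ v = (E.filter (fun e => e.2 = v)).card :=
    fun v => rd_eq' E hloop v
  have hPC : PC R := by
    refine ⟨hloop, ?_, ?_, ?_, ?_, ?_⟩
    · rw [Fintype.card_fin]
      exact hn
    · intro t h1 h2
      rw [Fintype.card_fin] at h2
      simp only [hro]
      exact (hP t h1 h2).1
    · intro t h1 h2
      rw [Fintype.card_fin] at h2
      simp only [hri]
      exact (hP t h1 h2).2
    · intro t h1
      rw [Fintype.card_fin] at h1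
      have h2 := (hO (by omega)).1
      have h3 : (n + 1) / 2 = t + 1 := by omega
      rw [h3] at h2
      simp only [hro]
      simp only [Nat.lt_succ_iff] at h2
      exact h2
    · intro t h1
      rw [Fintype.card_fin] at h1
      have h2 := (hO (by omega)).2
      have h3 : (n + 1) / 2 = t + 1 := by omega
      rw [h3] at h2
      simp only [hri]
      simp only [Nat.lt_succ_iff] at h2
      exact h2
  obtain ⟨l, h1, h2, h3⟩ := cyc_pair hPC huv (by
    rw [Fintype.card_fin, hro, hro, hri, hri]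
    rcases hd with hd | hd | hd | hd | hd | hd | hd | hd
    · exact Or.inl ⟨hd.2, hd.1⟩
    · exact Or.inr (Or.inl ⟨hd.2, hd.1⟩)
    · exact Or.inr (Or.inr (Or.inl hd))
    · exact Or.inr (Or.inr (Or.inr (Or.inl hd)))
    · exact Or.inr (Or.inr (Or.inr (Or.inr (Or.inl hd))))
    · exact Or.inr (Or.inr (Or.inr (Or.inr (Or.inr (Or.inl hd)))))
    · exact Or.inr (Or.inr (Or.inr (Or.inr (Or.inr (Or.inr (Or.inl hd))))))
    · exact Or.inr (Or.inr (Or.inr (Or.inr (Or.inr (Or.inr (Or.inr hd)))))))
  exact ⟨l, h1.2.1, h1.2.2.1, h1.2.2.2, h2, h3⟩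

end Pool.Agent.Results.MP_a27047_co.CommonCycle
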