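import Mathlib
import Pool.Agent.NashL.Levels

/-!
# Hamilton cycles: few vertices low on both sides, or no cycles through them

`X` contains all vertices of small outdegree (the others have outdegree at least `δ + |X|`), `K`
contains all vertices of indegree less than `n - 1 - δ`. The outdegrees in `X` satisfy a Posa-type
condition, which is strict for the vertices of `X ∩ K` and weak for the others. The indegrees in `K`
satisfy the weak condition after a reduction by `r v`. There is no reduction for a vertex outside
`X` or of indegree at least `|K|`. For the other vertices `v` of `X ∩ K` the number `r v` is at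
least one if `v` has an in-neighbour in `K` outside `X`, plus (if `v` has outdegree at most `|X|`)
the number of in-neighbours of `v` in `X ∩ K` on the level of `v`, where the level `h` is any
function that does not decrease along the edges inside `X ∩ K`. Or the same with the roles of `X`,
outdegrees and of `K`, indegrees exchanged. Then the digraph has a Hamilton cycle.

Proof: some linear forest leaves every vertex of `X` and enters every vertex of `K`
(`Pool.Agent.NashL.Levels`: contraction of edges, the lowest low row first), and such a linear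
forest gives a Hamilton cycle by contraction and a closure argument (`Pool.Agent.NashF.Red`).
-/

set_option autoImplicit false

namespace Pool.Agent.Results.MP_a27047_co.LowOnOneSide

open Pool.Agent.NashW Pool.Agent.NashF Pool.Agent.NashL

theorem result (n : ℕ) (E : Finset (Fin n × Fin n))
    (hloop : ∀ v : Fin n, (v, v) ∉ E) (X K : Finset (Fin n)) (δ : ℕ)
    (hout : ∀ v, v ∉ X → δ + X.card ≤ (E.filter (fun e => e.1 = v)).card)
    (hin : ∀ v, v ∉ K → n ≤ (E.filter (fun e => e.2 = v)).card + 1 + δ)
    (hδ : n ≤ 2 * δ + X.card) (hn : X.card + 2 ≤ n) (h r : Fin n → ℕ)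
    (H : ((∀ i : ℕ, (X.filter (fun v =>
            (E.filter (fun e => e.1 = v)).card + (if v ∈ K then 0 else 1) ≤ i)).card ≤ i - 1) ∧
          (∀ i : ℕ, (K.filter (fun v =>
            (E.filter (fun e => e.2 = v)).card ≤ i + r v)).card ≤ i) ∧
          (∀ a ∈ X ∩ K, ∀ b ∈ X ∩ K, (a, b) ∈ E → h a ≤ h b) ∧
          ∀ v ∈ X ∩ K, (E.filter (fun e => e.2 = v)).card < K.card →
            (if ∃ e ∈ K \ X, (e, v) ∈ E then 1 else 0) +
            (if (E.filter (fun e => e.1 = v)).card ≤ X.card then
              ((X ∩ K).filter (fun z => (z, v) ∈ E ∧ h z = h v)).card else 0) ≤ r v) ∨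
        ((∀ i : ℕ, (K.filter (fun v =>
            (E.filter (fun e => e.2 = v)).card + (if v ∈ X then 0 else 1) ≤ i)).card ≤ i - 1) ∧
          (∀ i : ℕ, (X.filter (fun v =>
            (E.filter (fun e => e.1 = v)).card ≤ i + r v)).card ≤ i) ∧
          (∀ a ∈ X ∩ K, ∀ b ∈ X ∩ K, (a, b) ∈ E → h b ≤ h a) ∧
          ∀ v ∈ X ∩ K, (E.filter (fun e => e.1 = v)).card < X.card →
            (if ∃ e ∈ X \ K, (v, e) ∈ E then 1 else 0) +
            (if (E.filter (fun e => e.2 = v)).card ≤ K.card then
              ((X ∩ K).filter (fun z => (v, z) ∈ E ∧ h z = h v)).card else 0) ≤ r v)) :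
    ∃ σ : Equiv.Perm (Fin n), ∀ i : Fin n, (σ i, σ (finRotate n i)) ∈ E := by
  classical
  have hcov : Cov (fun a b : Fin n => (a, b) ∈ E) X K := by
    rcases H with ⟨h1, h2, h3, h4⟩ | ⟨h1, h2, h3, h4⟩
    · apply cov_red (fun a b : Fin n => (a, b) ∈ E) X K h r hloop
      · intro i
        simp only [od_eq]
        exact h1 i
      · intro i
        simp only [ideg_eq]
        exact h2 i
      · exact h3
      · intro v hv hvK
        rw [ideg_eq] at hvK
        simp only [od_eq]
        convert h4 v hv hvK
    · apply cov_red' (fun a b : Fin n => (a, b) ∈ E) X K h r hloop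
      · intro i
        simp only [ideg_eq]
        exact h1 i
      · intro i
        simp only [od_eq]
        exact h2 i
      · exact h3
      · intro v hv hvX
        rw [od_eq] at hvX
        simp only [ideg_eq]
        convert h4 v hv hvX
  apply hc_perm
  apply ham_of_cov (fun a b : Fin n => (a, b) ∈ E) X δ hloop
  · intro v hv
    rw [od_eq]
    exact hout v hv
  · rw [Fintype.card_fin]; exact hδ
  · rw [Fintype.card_fin]; exact hn
  · apply hcov.mono (Finset.Subset.refl _)
    intro v hv
    rw [mem_low, Fintype.card_fin, ideg_eq] at hv
    by_contra hvK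
    have := hin v hvK
    omega

end Pool.Agent.Results.MP_a27047_co.LowOnOneSide
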