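import Mathlib
import Pool.Agent.NashW.Fin

/-!
# A one-sided form of the Nash-Williams condition for Hamilton cycles in digraphs

Outdegrees: every vertex outside a set `X` has outdegree at least `k + |X| + |R|`, and even at
least `n - k` outside `X ∪ R`; the exceptional vertices in `X` only have to satisfy a Posa-type
condition on their outdegrees and have indegree at least `k + |X| - 1`. Indegrees: a Posa-type
condition below `k + |X|`. With `X = R = ∅` and `k = ⌊n / 2⌋` all outdegrees are at least `n / 2`.

The proof: a rotation lemma on a cyclic potential function (`Pool.Agent.NashW.Abs`), a closure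
theorem for adding edges into a vertex of indegree at least `k - 1`
(`Pool.Agent.NashW.Gen2`), and contraction of an edge leaving each vertex of `X`
(`Pool.Agent.NashW.Gen4`).
-/

set_option autoImplicit false

namespace Pool.Agent.Results.MP_a27047_co.OneSided

open Pool.Agent.NashW

theorem result (n : ℕ) (hn : 2 ≤ n) (E : Finset (Fin n × Fin n))
    (hloop : ∀ v : Fin n, (v, v) ∉ E)
    (X R : Finset (Fin n)) (hXR : Disjoint X R) (k : ℕ) (hk : 1 ≤ k)
    (hX : ∀ i : ℕ, (X.filter (fun v => (E.filter (fun e => e.1 = v)).card ≤ i)).card ≤ i)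
    (hXin : ∀ v ∈ X, k + X.card ≤ (E.filter (fun e => e.2 = v)).card + 1)
    (hR : ∀ v, v ∉ X → k + X.card + R.card ≤ (E.filter (fun e => e.1 = v)).card)
    (hbig : ∀ v, v ∉ X → v ∉ R → n ≤ (E.filter (fun e => e.1 = v)).card + k)
    (hin : ∀ i : ℕ, 1 ≤ i → i < k + X.card →
      (Finset.univ.filter (fun v : Fin n => (E.filter (fun e => e.2 = v)).card < i)).card < i) :
    ∃ σ : Equiv.Perm (Fin n), ∀ i : Fin n, (σ i, σ (finRotate n i)) ∈ E := by
  classical
  apply hc_perm
  apply thm_b X.card (Fin n) (fun a b => (a, b) ∈ E) X R k rfl hXR hk hloop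
  · rw [Fintype.card_fin]; exact hn
  · intro i
    have := hX i
    simp only [od_eq]
    convert this using 2
  · intro v h1 h2
    rw [Fintype.card_fin, od_eq]
    exact hbig v h1 h2
  · intro v h1
    rw [od_eq]
    exact hR v h1
  · intro v hv
    rw [ideg_eq]
    exact hXin v hv
  · intro i h1 h2
    have := hin i h1 h2
    simp only [ideg_eq]
    convert this using 2

end Pool.Agent.Results.MP_a27047_co.OneSided
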