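import Mathlib
import Pool.Agent.NashF.Final
import Pool.Agent.NashSq.Main

/-!
# Hamilton cycles: Nash-Williams condition with explicit slack

`X` contains all vertices of small outdegree (the others have outdegree at least `δ + |X|`), `K`
contains all vertices of indegree less than `n - 1 - δ`, and `W` contains all vertices that lie on
directed cycles inside `X ∩ K`. The outdegrees in `X` and the indegrees in `K` satisfy Posa-type
conditions, with slack for the vertices of `W`. The slack `σ`, `τ` (which may depend on the place in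
the degree sequence) has to satisfy two inequalities with nondecreasing potentials `f`, `g`. With
`f i = g i = i` a constant slack `a` with `a (a + 1) > 2 (|W| - 1)` suffices. With `f = g = log`
slack `s` at the place `r` suffices if `(r + 1) ⋯ (r + s) > |W| r ^ s`.

Proof: some linear forest leaves every vertex of `X` and enters every vertex of `K`
(`Pool.Agent.NashSq.Main`: the edges from `X` to `K` are treated greedily in the order of the sum of
the potentials of the ranks of their ends, then the outer edges are inserted), and such a linear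
forest gives a Hamilton cycle by contraction and a closure argument (`Pool.Agent.NashF.Red`).
-/

set_option autoImplicit false

namespace Pool.Agent.Results.MP_a27047_co.SquareRootSlack

open Pool.Agent.NashW Pool.Agent.NashF Pool.Agent.NashSq

theorem result (n : ℕ) (E : Finset (Fin n × Fin n))
    (hloop : ∀ v : Fin n, (v, v) ∉ E) (X K W : Finset (Fin n)) (δ : ℕ)
    (hout : ∀ v, v ∉ X → δ + X.card ≤ (E.filter (fun e => e.1 = v)).card)
    (hin : ∀ v, v ∉ K → n ≤ (E.filter (fun e => e.2 = v)).card + 1 + δ)
    (hδ : n ≤ 2 * δ + X.card) (hn : X.card + 2 ≤ n)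
    (hW : ∀ v, Relation.TransGen
      (fun x y => x ∈ X ∩ K ∧ y ∈ X ∩ K ∧ (x, y) ∈ E) v v → v ∈ W)
    (f g : ℕ → ℝ) (σ τ : ℕ → ℕ)
    (hf : Monotone f) (hg : Monotone g) (hσ : Monotone σ) (hτ : Monotone τ)
    (hfg : ∀ r, 1 ≤ r → r ≤ W.card →
      g W.card - g 1 < ∑ j ∈ Finset.range (σ r), (f (r + j + 1) - f r))
    (hgf : ∀ r, 1 ≤ r → r ≤ W.card →
      f W.card - f 1 < ∑ j ∈ Finset.range (τ r), (g (r + j + 1) - g r))
    (hX : ∀ i : ℕ, (X.filter (fun v => (E.filter (fun e => e.1 = v)).card ≤
      i + ((if v ∈ K then 1 else 0) + (if v ∈ W then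
        min (σ (i + 1)) (W.filter (fun w => (v, w) ∈ E)).card else 0)))).card ≤ i)
    (hK : ∀ i : ℕ, (K.filter (fun v => (E.filter (fun e => e.2 = v)).card ≤
      i + ((if v ∈ X ∧ ∃ e ∈ K \ X, (e, v) ∈ E then 1 else 0) + (if v ∈ W then
        min (τ (i + 1)) (W.filter (fun w => (w, v) ∈ E)).card else 0)))).card ≤ i) :
    ∃ σ : Equiv.Perm (Fin n), ∀ i : Fin n, (σ i, σ (finRotate n i)) ∈ E := by
  classical
  have hcov : Cov (fun x y : Fin n => (x, y) ∈ E) X K := by
    apply cov_sq (fun x y : Fin n => (x, y) ∈ E) X K W f g σ τ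
      (fun v i => (if v ∈ K then 1 else 0) +
        (if v ∈ W then min (σ (i + 1)) (W.filter (fun w => (v, w) ∈ E)).card else 0))
      (fun v i => (if v ∈ X ∧ ∃ e ∈ K \ X, (e, v) ∈ E then 1 else 0) +
        (if v ∈ W then min (τ (i + 1)) (W.filter (fun w => (w, v) ∈ E)).card else 0))
      hloop _ hf hg hσ hτ hfg hgf
    · intro v _ hvK i
      rw [if_pos hvK]
      apply Nat.add_le_add_left
      by_cases h : v ∈ W
      · rw [if_pos h, if_pos h]
        apply le_of_eq
        congr 2
        ext w
        simp only [Finset.mem_filter]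
      · rw [if_neg h, if_neg h]
    · intro v _ hvX i
      have h1 : (v ∈ X ∧ ∃ e ∈ K \ X, (e, v) ∈ E) ↔ ∃ e ∈ K, e ∉ X ∧ (e, v) ∈ E := by
        constructor
        · rintro ⟨_, e, he, h⟩
          rw [Finset.mem_sdiff] at he
          exact ⟨e, he.1, he.2, h⟩
        · rintro ⟨e, he, he', h⟩
          exact ⟨hvX, e, Finset.mem_sdiff.mpr ⟨he, he'⟩, h⟩
      apply Nat.add_le_add
      · by_cases h : ∃ e ∈ K, e ∉ X ∧ (e, v) ∈ E
        · rw [if_pos h, if_pos (h1.mpr h)]
        · rw [if_neg h]; exact Nat.zero_le _
      · by_cases h : v ∈ W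
        · rw [if_pos h, if_pos h]
          apply le_of_eq
          congr 2
          ext w
          simp only [Finset.mem_filter]
        · rw [if_neg h, if_neg h]
    · intro v i j hij
      have := hσ (Nat.add_le_add_right hij 1)
      show (if v ∈ K then 1 else 0) + _ ≤ (if v ∈ K then 1 else 0) + _
      apply Nat.add_le_add_left
      split_ifs
      · exact min_le_min_right _ this
      · exact le_refl _
    · intro v i j hij
      have := hτ (Nat.add_le_add_right hij 1)
      apply Nat.add_le_add_left
      split_ifs
      · exact min_le_min_right _ this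
      · exact le_refl _
    · intro i
      simp only [od_eq]
      exact hX i
    · intro i
      simp only [ideg_eq]
      exact hK i
    · intro v hv
      apply hW
      exact Relation.TransGen.lift id (fun x y h =>
        ⟨Finset.mem_inter.mpr h.1, Finset.mem_inter.mpr h.2.1, h.2.2⟩) v v hv
  apply hc_perm
  apply ham_of_cov (fun x y : Fin n => (x, y) ∈ E) X δ hloop
  · intro v hv
    rw [od_eq]
    exact hout v hv
  · rw [Fintype.card_fin]; exact hδ
  · rw [Fintype.card_fin]; exact hn
  · apply hcov.mono (Finset.Subset.refl _)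
    intro v hv
    rw [mem_low, Fintype.card_fin, ideg_eq] at hv
    by_contra hvK
    have := hin v hvK
    omega

end Pool.Agent.Results.MP_a27047_co.SquareRootSlack
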